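import Pool.Agent.H987.Y.StA

/-! K4: the kernel of the tree of sheets and the equation of the root sheet. -/

set_option autoImplicit false
set_option linter.unusedSectionVars false

open scoped BigOperators InnerProductSpace Topology
open Filter MeasureTheory

namespace Pool.Agent.H410.Y987

open Pool.Agent.H987.Y
open Pool.Agent.Y662.TR (LL Cf Mw dv lmk ll_sum ll_summable ll_inner ll_coord ev ev_apply
  add_coord sub_coord neg_coord smul_coord ll_ext inner_dv dv_self dv_ne dv_apply Cf_apply hu clp)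
open Pool.Agent.TH369.AN (Rz rz_eq rz_uniq rz_norm)
open Pool.Agent.H987.Z (Rs Gr Fr gZ HV)

section sums

variable {X Ω : Type} {n : ℕ} {E : Type} [NormedAddCommGroup E] [NormedSpace ℝ E]

/-- the child of `v` with the label `j` -/
def cc (o : X) (v : Vt X n) (j : Fin (n + 1)) : Vt X n := ((v.2, j) :: v.1, o)

open Classical in
theorem bnd_sum (f : Bool) (o : X) (v : Vt X n) (g : Vt X n → E) :
    HasSum (fun v' => bnd f o v v' • g v') (∑ j, if al f o v j then g (cc o v j) else 0) := by
  have h1 : ∀ j ∈ (Finset.univ : Finset (Fin (n + 1))), HasSum (fun v' : Vt X n =>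
      if v' = cc o v j then (if al f o v j then g (cc o v j) else 0) else 0)
      (if al f o v j then g (cc o v j) else 0) := fun j _ => hasSum_ite_eq _ _
  have h2 := hasSum_sum h1
  convert h2 using 1
  funext v'
  by_cases hb : v'.2 = o ∧ ∃ j, v'.1 = (v.2, j) :: v.1 ∧ al f o v j
  · obtain ⟨ho, j, hj, ha⟩ := hb
    have hv : v' = cc o v j := Prod.ext hj ho
    rw [Finset.sum_eq_single j]
    · rw [if_pos hv, if_pos ha, bnd, if_pos ⟨ho, j, hj, ha⟩, one_smul, hv]
    · intro j' _ hne
      rw [if_neg]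
      intro h
      rw [hv] at h
      have := congrArg Prod.fst h
      simp only [cc, List.cons.injEq, Prod.mk.injEq, true_and, and_true] at this
      exact hne this.symm
    · intro h
      exact absurd (Finset.mem_univ _) h
  · rw [bnd, if_neg hb, zero_smul]
    symm
    refine Finset.sum_eq_zero fun j _ => ?_
    by_cases h : v' = cc o v j
    · rw [if_pos h, if_neg]
      intro ha
      exact hb ⟨by rw [h]; rfl, j, by rw [h]; rfl, ha⟩
    · rw [if_neg h]

open Classical in
/-- the term of the parent -/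
noncomputable def pr (f : Bool) (o : X) (g : Vt X n → E) : Vt X n → E
  | ([], _) => 0
  | ((y, j) :: l, x) => if x = o ∧ al f o ((l, y) : Vt X n) j then g (l, y) else 0

open Classical in
theorem pr_cons (f : Bool) (o : X) (g : Vt X n → E) (y : X) (j : Fin (n + 1)) (l : List (Ix X n))
    (x : X) : pr f o g (((y, j) :: l, x) : Vt X n) =
      if x = o ∧ al f o ((l, y) : Vt X n) j then g (l, y) else 0 := rfl

open Classical in
theorem pr_nil (f : Bool) (o : X) (g : Vt X n → E) (x : X) :
    pr f o g (([], x) : Vt X n) = 0 := rfl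

open Classical in
theorem par_sum (f : Bool) (o : X) (v : Vt X n) (g : Vt X n → E) :
    HasSum (fun v' => bnd f o v' v • g v') (pr f o g v) := by
  obtain ⟨l, x⟩ := v
  cases l with
  | nil =>
    have h : (fun v' : Vt X n => bnd f o v' ([], x) • g v') = fun _ => 0 := by
      funext v'
      rw [bnd, if_neg, zero_smul]
      rintro ⟨_, j, hj, _⟩
      simp at hj
    rw [h]
    exact hasSum_zero
  | cons p l =>
    obtain ⟨y, j⟩ := p
    rw [pr_cons]
    have h1 := hasSum_ite_eq (β := Vt X n) ((l, y) : Vt X n)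
      (if x = o ∧ al f o ((l, y) : Vt X n) j then g (l, y) else 0)
    convert h1 using 1
    funext v'
    by_cases hv : v' = (l, y)
    · subst hv
      rw [if_pos rfl]
      by_cases hx : x = o ∧ al f o ((l, y) : Vt X n) j
      · rw [if_pos hx, bnd, if_pos ⟨hx.1, j, rfl, hx.2⟩, one_smul]
      · rw [if_neg hx, bnd, if_neg, zero_smul]
        rintro ⟨h2, j', h3, h4⟩
        simp only [List.cons.injEq, Prod.mk.injEq, true_and, and_true] at h3
        subst h3
        exact hx ⟨h2, h4⟩
    · rw [if_neg hv, bnd, if_neg, zero_smul]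
      rintro ⟨h2, j', h3, h4⟩
      simp only [List.cons.injEq, Prod.mk.injEq] at h3
      exact hv (Prod.ext h3.2.symm h3.1.1.symm)

open Classical in
theorem sheet_sum (v : Vt X n) (F : X → E) (s : E) (hF : HasSum F s) :
    HasSum (fun v' : Vt X n => if v.1 = v'.1 then F v'.2 else 0) s := by
  have hi : Function.Injective (fun y : X => ((v.1, y) : Vt X n)) := by
    intro a b h
    exact (Prod.mk.inj h).2
  rw [← hi.hasSum_iff]
  · convert hF using 1
    funext y
    simp
  · rintro ⟨l, y⟩ h
    rw [if_neg]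
    intro h2
    exact h ⟨y, by rw [h2]⟩

end sums

section ker

variable {X Ω : Type} {n : ℕ}

theorem bnd_nonneg (f : Bool) (o : X) (v v' : Vt X n) : 0 ≤ bnd f o v v' := by
  unfold bnd
  split_ifs
  · exact zero_le_one
  · exact le_rfl

theorem ker_kB (k : Ω → X → X → ℝ) (h : ℝ) (hk : ∀ ω, Ker h (k ω)) (f : Bool) (o : X) (a : ℝ)
    (W : List (Ix X n) → Ω) : Ker (h + |a| * (n + 2)) (kB k f o a W) := by
  classical
  have hsum : ∀ v : Vt X n, HasSum (fun v' : Vt X n =>
      (if v.1 = v'.1 then |k (W v.1) v.2 v'.2| else 0) +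
        |a| * (bnd f o v v' • (1 : ℝ) + bnd f o v' v • (1 : ℝ)))
      ((∑' y, |k (W v.1) v.2 y|) + |a| * ((∑ j, if al f o v j then (1 : ℝ) else 0) +
        pr f o (fun _ => (1 : ℝ)) v)) := by
    intro v
    have h1 := sheet_sum (n := n) v (fun y => |k (W v.1) v.2 y|) _ ((hk (W v.1)).sm v.2).hasSum
    have h2 := bnd_sum f o v (fun _ => (1 : ℝ))
    have h3 := par_sum f o v (fun _ => (1 : ℝ))
    exact h1.add ((h2.add h3).mul_left _)
  have hle : ∀ v v' : Vt X n, |kB k f o a W v v'| ≤
      (if v.1 = v'.1 then |k (W v.1) v.2 v'.2| else 0) +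
        |a| * (bnd f o v v' • (1 : ℝ) + bnd f o v' v • (1 : ℝ)) := by
    intro v v'
    unfold kB
    refine (abs_add_le _ _).trans (add_le_add ?_ ?_)
    · split_ifs
      · exact le_rfl
      · rw [abs_zero]
    · rw [abs_mul, smul_eq_mul, smul_eq_mul, mul_one, mul_one,
        abs_of_nonneg (add_nonneg (bnd_nonneg f o v v') (bnd_nonneg f o v' v))]
  have hsm : ∀ v : Vt X n, Summable fun v' => |kB k f o a W v v'| := fun v =>
    Summable.of_nonneg_of_le (fun v' => abs_nonneg _) (hle v) (hsum v).summable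
  refine ⟨?_, ?_, hsm, ?_⟩
  · have hω : 0 ≤ h ∨ IsEmpty (Vt X n) := by
      by_cases hX : Nonempty X
      · exact Or.inl (hk (W [])).h0
      · right
        refine ⟨fun v => hX ⟨v.2⟩⟩
    have := (hk (W [])).h0
    positivity
  · intro v v'
    unfold kB
    rw [add_comm (bnd f o v v')]
    congr 1
    by_cases hv : v.1 = v'.1
    · rw [if_pos hv, if_pos hv.symm, (hk _).sy, hv]
    · rw [if_neg hv, if_neg (fun h => hv h.symm)]
  · intro v
    have h1 : ∑' v', |kB k f o a W v v'| ≤ (∑' y, |k (W v.1) v.2 y|) +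
        |a| * ((∑ j, if al f o v j then (1 : ℝ) else 0) + pr f o (fun _ => (1 : ℝ)) v) := by
      rw [← (hsum v).tsum_eq]
      exact (hsm v).tsum_le_tsum (hle v) (hsum v).summable
    refine h1.trans (add_le_add ((hk _).le _) (mul_le_mul_of_nonneg_left ?_ (abs_nonneg _)))
    have h2 : (∑ j : Fin (n + 1), if al f o v j then (1 : ℝ) else 0) ≤ n + 1 := by
      refine (Finset.sum_le_sum (g := fun _ => (1 : ℝ)) fun j _ => ?_).trans ?_
      · split_ifs
        · exact le_rfl
        · exact zero_le_one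
      · simp
    have h3 : pr f o (fun _ => (1 : ℝ)) v ≤ 1 := by
      obtain ⟨l, x⟩ := v
      cases l with
      | nil => exact zero_le_one
      | cons p l =>
        obtain ⟨y, j⟩ := p
        rw [pr_cons]
        split_ifs
        · exact le_rfl
        · exact zero_le_one
    linarith

end ker

section root

variable {X Ω : Type} {n : ℕ}

open Classical in
/-- the action of the kernel of the tree -/
theorem kB_act (hop : S_op) (k : Ω → X → X → ℝ) (h : ℝ) (hk : ∀ ω, Ker h (k ω)) (f : Bool) (o : X)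
    (a : ℝ) (W : List (Ix X n) → Ω) (u : LL (Vt X n)) (v : Vt X n) (φ : LL X)
    (hφ : ∀ y, φ y = u (v.1, y)) :
    Op (kB k f o a W) u v = Op (k (W v.1)) φ v.2 +
      (a : ℂ) * ((∑ j, if al f o v j then u (cc o v j) else 0) + pr f o (fun w => u w) v) := by
  obtain ⟨h1, _⟩ := hop (Vt X n) (kB k f o a W) _ (ker_kB k h hk f o a W)
  obtain ⟨h2, _⟩ := hop X (k (W v.1)) _ (hk (W v.1))
  rw [(h1 u v).2, (h2 φ v.2).2]
  have e1 := sheet_sum (n := n) v (fun y => ((k (W v.1) v.2 y : ℝ) : ℂ) * φ y) _
    (h2 φ v.2).1.hasSum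
  have e2 := bnd_sum f o v (fun w => u w)
  have e3 := par_sum f o v (fun w => u w)
  have e4 := e1.add ((e2.add e3).mul_left (a : ℂ))
  refine (tsum_congr fun v' => ?_).trans e4.tsum_eq
  unfold kB
  rw [Complex.real_smul, Complex.real_smul]
  by_cases hv : v.1 = v'.1
  · rw [if_pos hv, if_pos hv, hφ, hv]
    push_cast
    ring
  · rw [if_neg hv, if_neg hv]
    push_cast
    ring

/-- the inclusion of a branch -/
def ji (i : Ix X n) (v : Vt X n) : Vt X n := (v.1 ++ [i], v.2)

theorem ji_inj (i : Ix X n) : Function.Injective (ji i) := by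
  rintro ⟨l, x⟩ ⟨l', x'⟩ h
  unfold ji at h
  simp only [Prod.mk.injEq, List.append_cancel_right_eq] at h
  exact Prod.ext h.1 h.2

theorem sh_inj (l : List (Ix X n)) : Function.Injective (fun y : X => ((l, y) : Vt X n)) := by
  intro a b h
  exact (Prod.mk.inj h).2

theorem al_ji (f : Bool) (o : X) (i : Ix X n) (v : Vt X n) (j : Fin (n + 1)) :
    al f o (ji i v) j ↔ al false o v j := by
  unfold al ji
  simp

theorem al_root_false (f : Bool) (o : X) (v : Vt X n) (j : Fin (n + 1)) (hv : v.1 ≠ []) :
    al f o v j ↔ al false o v j := by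
  unfold al
  simp [hv]

/-- the branch of the resolvent -/
theorem branch (hop : S_op) (k : Ω → X → X → ℝ) (h : ℝ) (hk : ∀ ω, Ker h (k ω)) (f : Bool) (o : X)
    (a : ℝ) (W : List (Ix X n) → Ω) (u : LL (Vt X n)) (z : ℂ) (hz : z.im ≠ 0)
    (hu : ∀ v : Vt X n, v.1 ≠ [] → Op (kB k f o a W) u v - z * u v = 0) (x : X) (j : Fin (n + 1))
    (hj : al f o (([], x) : Vt X n) j) :
    u (cc o ([], x) j) = -((a : ℂ) * u ([], x)) * GB k false o a (br (x, j) W) z := by
  classical
  obtain ⟨_, _, hsa, _⟩ := hop (Vt X n) (kB k false o a (br (x, j) W)) _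
    (ker_kB k h hk false o a (br (x, j) W))
  obtain ⟨ψ, hψ⟩ : ∃ ψ, ψ = Cf (ji (x, j)) (ji_inj (x, j)) u := ⟨_, rfl⟩
  have hψ' : ∀ v, ψ v = u (ji (x, j) v) := fun v => by rw [hψ]; rfl
  have key : Op (kB k false o a (br (x, j) W)) ψ - z • ψ =
      (-((a : ℂ) * u ([], x))) • dv (([], o) : Vt X n) := by
    apply ll_ext
    intro v
    rw [sub_coord, smul_coord, smul_coord]
    rw [kB_act hop k h hk false o a (br (x, j) W) ψ v
      (Cf (fun y : X => ((v.1, y) : Vt X n)) (sh_inj v.1) ψ) (fun y => rfl)]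
    have e1 := hu (ji (x, j) v) (by unfold ji; simp)
    rw [kB_act hop k h hk f o a W u (ji (x, j) v)
      (Cf (fun y : X => (((ji (x, j) v).1, y) : Vt X n)) (sh_inj _) u) (fun y => rfl)] at e1
    have e2 : Cf (fun y : X => (((ji (x, j) v).1, y) : Vt X n)) (sh_inj _) u =
        Cf (fun y : X => ((v.1, y) : Vt X n)) (sh_inj v.1) ψ := by
      apply ll_ext
      intro y
      rw [Cf_apply, Cf_apply, hψ']
      rfl
    have e3 : br (x, j) W v.1 = W (ji (x, j) v).1 := rfl
    rw [e2, ← e3] at e1
    have e4 : (∑ j', if al f o (ji (x, j) v) j' then u (cc o (ji (x, j) v) j') else 0) =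
        ∑ j', if al false o v j' then ψ (cc o v j') else 0 := by
      refine Finset.sum_congr rfl fun j' _ => ?_
      rw [hψ']
      have : cc o (ji (x, j) v) j' = ji (x, j) (cc o v j') := rfl
      rw [this]
      simp only [al_ji]
    rw [e4] at e1
    have e5 : pr f o (fun w => u w) (ji (x, j) v) = pr false o (fun w => ψ w) v +
        u ([], x) * dv (([], o) : Vt X n) v := by
      obtain ⟨l, y⟩ := v
      cases l with
      | nil =>
        have p1 : pr false o (fun w => ψ w) (([], y) : Vt X n) = 0 := rfl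
        have p2 : ji (x, j) (([], y) : Vt X n) = ([(x, j)], y) := rfl
        rw [p1, p2, zero_add, pr_cons]
        by_cases hy : y = o
        · subst hy
          rw [dv_self, if_pos ⟨rfl, hj⟩, mul_one]
        · rw [dv_ne (by
            intro h
            exact hy (Prod.mk.inj h).2), if_neg (fun h => hy h.1), mul_zero]
      | cons p l =>
        obtain ⟨y', j'⟩ := p
        have h4 : dv (([], o) : Vt X n) (((y', j') :: l, y) : Vt X n) = 0 := dv_ne (by simp)
        have p2 : ji (x, j) (((y', j') :: l, y) : Vt X n) = ((y', j') :: (l ++ [(x, j)]), y) := rfl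
        rw [h4, mul_zero, add_zero, p2, pr_cons, pr_cons]
        have p3 : al f o ((l ++ [(x, j)], y') : Vt X n) j' ↔ al false o ((l, y') : Vt X n) j' :=
          al_ji f o (x, j) (l, y') j'
        simp only [p3, hψ']
        rfl
    rw [e5] at e1
    have e6 : ψ v = u (ji (x, j) v) := hψ' v
    rw [e6]
    have e7 : (ji (x, j) v).2 = v.2 := rfl
    rw [e7] at e1
    linear_combination e1
  have h1 := rz_uniq _ hsa.sa z hz ψ _ key
  have h2 : ψ ([], o) = -((a : ℂ) * u ([], x)) * GB k false o a (br (x, j) W) z := by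
    rw [h1, map_smul, smul_coord]
    rfl
  rw [← h2, hψ']
  rfl

theorem troot (hop : S_op) : S_troot := by
  intro X Ω n k h hk f o a W
  refine ⟨ker_kB k h hk f o a W, fun z hz => ?_⟩
  classical
  obtain ⟨_, _, hsa, _⟩ := hop (Vt X n) (kB k f o a W) _ (ker_kB k h hk f o a W)
  obtain ⟨u, hu⟩ : ∃ u, u = Rz (Op (kB k f o a W)) z (dv (([], o) : Vt X n)) := ⟨_, rfl⟩
  have hG : ∀ v, Gr (Op (kB k f o a W)) z v ([], o) = u v := fun v => by rw [hu]; rfl
  have e0 := rz_eq _ hsa.sa z hz (dv (([], o) : Vt X n))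
  rw [← hu] at e0
  have e1 : ∀ v, Op (kB k f o a W) u v - z * u v = dv (([], o) : Vt X n) v := by
    intro v
    rw [← e0, sub_coord, smul_coord]
  refine ⟨Cf (fun y : X => (([], y) : Vt X n)) (sh_inj []) u, fun x => ?_, fun x => ?_⟩
  · rw [hG]
    rfl
  · have e2 := e1 ([], x)
    rw [kB_act hop k h hk f o a W u ([], x)
      (Cf (fun y : X => (([], y) : Vt X n)) (sh_inj []) u) (fun y => rfl)] at e2
    have e3 : pr f o (fun w => u w) (([], x) : Vt X n) = 0 := rfl
    have e4 : ∀ j : Fin (n + 1), (if al f o (([], x) : Vt X n) j then u (cc o ([], x) j) else 0) =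
        -((a : ℂ) * u ([], x)) *
          (if al f o (([], x) : Vt X n) j then GB k false o a (br (x, j) W) z else 0) := by
      intro j
      by_cases hj : al f o (([], x) : Vt X n) j
      · rw [if_pos hj, if_pos hj]
        refine branch hop k h hk f o a W u z hz (fun v hv => ?_) x j hj
        rw [e1 v, dv_ne]
        intro h
        exact hv (by rw [h])
      · rw [if_neg hj, if_neg hj, mul_zero]
    rw [e3, add_zero, Finset.sum_congr rfl fun j _ => e4 j, ← Finset.mul_sum] at e2
    have e5 : dv (([], o) : Vt X n) ([], x) = dv o x := by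
      by_cases hx : x = o
      · subst hx
        rw [dv_self, dv_self]
      · rw [dv_ne hx, dv_ne (by
          intro h
          exact hx (Prod.mk.inj h).2)]
    rw [e5] at e2
    rw [← e2]
    have e6 : Cf (fun y : X => (([], y) : Vt X n)) (sh_inj []) u x = u ([], x) := rfl
    rw [e6]
    ring

end root

end Pool.Agent.H410.Y987
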